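import Pool.Agent.Helper96.SE.St

set_option autoImplicit false

namespace Pool.Agent.Helper39.SE

open Pool.Agent.Helper96.SE Pool.Agent.Helper96.BC Pool.Agent.Helper95.TT Pool.Agent.Helper24.TF Pool.Agent.Helper95.WS
open scoped Classical

private theorem card_nth {F : Type} [Field F] [Fintype F] (n : ℕ) (hn : 0 < n) (c : F) :
    Nat.card {z : F // z ^ n = c} = (Polynomial.nthRoots n c).toFinset.card := by
  rw [Nat.card_eq_fintype_card, Fintype.card_subtype]
  congr 1
  ext z
  rw [Finset.mem_filter, Multiset.mem_toFinset, Polynomial.mem_nthRoots hn]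
  simp

private theorem mem_XX {F : Type} [Field F] [Fintype F] (n : ℕ) (ψ : MulChar F ℂ) :
    ψ ∈ XX F n ↔ ψ ^ n = 1 ∧ ψ ≠ 1 := by
  unfold XX
  rw [Set.Finite.mem_toFinset]
  rfl

/-- two characters which agree at a generator -/
private theorem ext_gen {F : Type} [Field F] [Fintype F] (g : Fˣ) (hg : ∀ y : Fˣ, y ∈ Submonoid.powers g)
    (ψ φ : MulChar F ℂ) (h : ψ g = φ g) : ψ = φ := by
  ext u
  obtain ⟨k, hk⟩ := hg u
  have hk' : g ^ k = u := hk
  rw [← hk', Units.val_pow_eq_pow_val, map_pow, map_pow, h]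

private theorem norm_one {F : Type} [Field F] [Fintype F] (n : ℕ) (hn : n ≠ 0) (ψ : MulChar F ℂ)
    (h : ψ ^ n = 1) (b : F) (hb : b ≠ 0) : ψ b ^ n = 1 := by
  rw [← MulChar.pow_apply' ψ hn b, h, MulChar.one_apply (Ne.isUnit hb)]

private theorem lastpart {F : Type} [Field F] [Fintype F] (n : ℕ) (hn : n.Prime) (ψ : MulChar F ℂ)
    (h : ψ ^ n = 1) (a b : F) (ha : a ≠ 0) (hb : b ≠ 0) :
    ψ a * starRingEnd ℂ (ψ b) = ψ (a * b ^ (n - 1)) ∧ ‖ψ a‖ = 1 := by
  have h1 : ∀ c : F, c ≠ 0 → ‖ψ c‖ = 1 := fun c hc =>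
    Complex.norm_eq_one_of_pow_eq_one (norm_one n hn.ne_zero ψ h c hc) hn.ne_zero
  refine ⟨?_, h1 a ha⟩
  rw [map_mul, map_pow]
  congr 1
  have h2 : ψ b * starRingEnd ℂ (ψ b) = 1 := by
    rw [Complex.mul_conj, Complex.normSq_eq_norm_sq, h1 b hb]
    norm_num
  have h3 : ψ b * ψ b ^ (n - 1) = 1 := by
    rw [← pow_succ', Nat.sub_add_cancel hn.one_lt.le]
    exact norm_one n hn.ne_zero ψ h b hb
  have hb0 : ψ b ≠ 0 := fun h0 => by rw [h0, zero_mul] at h3; exact zero_ne_one h3
  exact mul_left_cancel₀ hb0 (h2.trans h3.symm)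

private theorem case_cop {F : Type} [Field F] [Fintype F] (n : ℕ) (hn : n.Prime)
    (hd : ¬ n ∣ Fintype.card F - 1) :
    XX F n = ∅ ∧ ∀ c : F, Nat.card {z : F // z ^ n = c} = 1 := by
  have hcard : Fintype.card Fˣ = Fintype.card F - 1 := Fintype.card_units F
  have hcop : (Nat.card Fˣ).Coprime n := by
    rw [Nat.card_eq_fintype_card, hcard, Nat.coprime_comm]
    exact (Nat.Prime.coprime_iff_not_dvd hn).2 hd
  constructor
  · rw [Finset.eq_empty_iff_forall_notMem]
    intro ψ hψ
    rw [mem_XX] at hψ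
    apply hψ.2
    have h1 := MulChar.pow_card_eq_one ψ
    have h2 : orderOf ψ ∣ n := orderOf_dvd_of_pow_eq_one hψ.1
    have h3 : orderOf ψ ∣ Fintype.card Fˣ := orderOf_dvd_of_pow_eq_one h1
    rw [Nat.card_eq_fintype_card] at hcop
    have h4 : orderOf ψ ∣ 1 := by
      rw [← Nat.Coprime.gcd_eq_one hcop]
      exact Nat.dvd_gcd h3 h2
    rw [Nat.dvd_one] at h4
    exact orderOf_eq_one_iff.1 h4
  · intro c
    rw [Nat.card_eq_one_iff_unique]
    constructor
    · constructor
      rintro ⟨z, hz⟩ ⟨w, hw⟩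
      rw [Subtype.mk.injEq]
      by_cases hc : c = 0
      · rw [hc] at hz hw
        rw [pow_eq_zero_iff hn.ne_zero] at hz hw
        rw [hz, hw]
      · have hz0 : z ≠ 0 := fun h => hc (by rw [← hz, h, zero_pow hn.ne_zero])
        have hw0 : w ≠ 0 := fun h => hc (by rw [← hw, h, zero_pow hn.ne_zero])
        have h1 : (Units.mk0 z hz0) = Units.mk0 w hw0 := by
          apply (powCoprime hcop).injective
          show (Units.mk0 z hz0) ^ n = (Units.mk0 w hw0) ^ n
          ext
          push_cast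
          rw [Units.val_mk0, Units.val_mk0, hz, hw]
        have h2 := congrArg Units.val h1
        rwa [Units.val_mk0, Units.val_mk0] at h2
    · by_cases hc : c = 0
      · exact ⟨⟨0, by rw [hc, zero_pow hn.ne_zero]⟩⟩
      · obtain ⟨u, hu⟩ := (powCoprime hcop).surjective (Units.mk0 c hc)
        have hu' : u ^ n = Units.mk0 c hc := hu
        refine ⟨⟨(u : F), ?_⟩⟩
        rw [← Units.val_pow_eq_pow_val, hu', Units.val_mk0]

private theorem case_div {F : Type} [Field F] [Fintype F] (n : ℕ) (hn : n.Prime)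
    (hd : n ∣ Fintype.card F - 1) :
    (∀ c : F, ((Nat.card {z : F // z ^ n = c} : ℕ) : ℂ) = 1 + ∑ ψ ∈ XX F n, ψ c) ∧
    (XX F n).card ≤ n - 1 := by
  obtain ⟨g, hg⟩ := IsCyclic.exists_monoid_generator (α := Fˣ)
  haveI : NeZero n := ⟨hn.ne_zero⟩
  have hζ := Complex.isPrimitiveRoot_exp n hn.ne_zero
  obtain ⟨χ, hχ⟩ := MulChar.exists_mulChar_orderOf F hd hζ
  have hχn : χ ^ n = 1 := by rw [← hχ]; exact pow_orderOf_eq_one χ
  -- the value at the generator is a primitive root
  have hprim : IsPrimitiveRoot (χ g) n := by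
    refine ⟨norm_one n hn.ne_zero χ hχn _ g.ne_zero, fun l hl => ?_⟩
    rw [← hχ]
    rcases Nat.eq_zero_or_pos l with h0 | h0
    · rw [h0]; exact dvd_zero _
    apply orderOf_dvd_of_pow_eq_one
    apply ext_gen g hg
    rw [MulChar.pow_apply' χ h0.ne', hl, MulChar.one_apply (Ne.isUnit g.ne_zero)]
  have hXX : XX F n = (Finset.Ico 1 n).image (fun i => χ ^ i) := by
    ext ψ
    rw [mem_XX, Finset.mem_image]
    constructor
    · rintro ⟨h1, h2⟩
      obtain ⟨i, hi, hi2⟩ := hprim.eq_pow_of_pow_eq_one (norm_one n hn.ne_zero ψ h1 _ g.ne_zero)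
      have hi0 : i ≠ 0 := by
        intro h0
        apply h2
        apply ext_gen g hg
        rw [MulChar.one_apply (Ne.isUnit g.ne_zero), ← hi2, h0, pow_zero]
      refine ⟨i, Finset.mem_Ico.2 ⟨Nat.pos_of_ne_zero hi0, hi⟩, ?_⟩
      apply ext_gen g hg
      rw [MulChar.pow_apply' χ hi0, hi2]
    · rintro ⟨i, hi, rfl⟩
      rw [Finset.mem_Ico] at hi
      refine ⟨by rw [← pow_mul, mul_comm, pow_mul, hχn, one_pow], fun h => ?_⟩
      have h1 := orderOf_dvd_of_pow_eq_one h
      rw [hχ] at h1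
      exact absurd (Nat.le_of_dvd hi.1 h1) (not_le.2 hi.2)
  have hinj : Set.InjOn (fun i => χ ^ i) (Finset.Ico 1 n : Finset ℕ) := by
    intro i hi j hj hij
    rw [Finset.coe_Ico, Set.mem_Ico] at hi hj
    exact pow_injOn_Iio_orderOf (by rw [Set.mem_Iio, hχ]; exact hi.2)
      (by rw [Set.mem_Iio, hχ]; exact hj.2) hij
  constructor
  · intro c
    have hsum : 1 + ∑ ψ ∈ XX F n, ψ c = ∑ i ∈ Finset.range n, χ c ^ i := by
      rw [hXX, Finset.sum_image hinj, Finset.range_eq_Ico, Finset.sum_eq_sum_Ico_succ_bot hn.pos,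
        pow_zero]
      congr 1
      apply Finset.sum_congr rfl
      intro i hi
      rw [Finset.mem_Ico] at hi
      rw [MulChar.pow_apply' χ (by omega)]
    rw [hsum]
    by_cases hc : c = 0
    · have h1 : χ c = 0 := by rw [hc]; exact MulChar.map_nonunit χ not_isUnit_zero
      rw [h1]
      have h2 : Nat.card {z : F // z ^ n = c} = 1 := by
        rw [Nat.card_eq_one_iff_unique]
        refine ⟨⟨?_⟩, ⟨⟨0, by rw [hc, zero_pow hn.ne_zero]⟩⟩⟩
        rintro ⟨z, hz⟩ ⟨w, hw⟩
        rw [Subtype.mk.injEq]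
        rw [hc, pow_eq_zero_iff hn.ne_zero] at hz hw
        rw [hz, hw]
      rw [h2, Finset.range_eq_Ico, Finset.sum_eq_sum_Ico_succ_bot hn.pos, pow_zero,
        Finset.sum_eq_zero, add_zero, Nat.cast_one]
      intro i hi
      rw [Finset.mem_Ico] at hi
      exact zero_pow (by omega)
    · -- primitive root in F
      have hcard : Fintype.card Fˣ = Fintype.card F - 1 := Fintype.card_units F
      have hgord : orderOf g = Fintype.card F - 1 := by
        rw [← hcard, ← Nat.card_eq_fintype_card]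
        apply orderOf_eq_card_of_forall_mem_zpowers
        intro y
        exact Subgroup.mem_zpowers_iff.2 (by
          obtain ⟨k, hk⟩ := hg y
          exact ⟨k, by rw [zpow_natCast]; exact hk⟩)
      obtain ⟨m, hm⟩ := hd
      have hm0 : 0 < Fintype.card F - 1 := by
        have := Fintype.one_lt_card (α := F)
        omega
      have hω : IsPrimitiveRoot ((g : F) ^ m) n := by
        have h1 : IsPrimitiveRoot (g : F) (Fintype.card F - 1) := by
          rw [← hgord, ← orderOf_units]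
          exact IsPrimitiveRoot.orderOf _
        exact h1.pow hm0 (by rw [hm, mul_comm])
      rw [card_nth n hn.pos, Multiset.toFinset_card_of_nodup (hω.nthRoots_nodup hc),
        hω.card_nthRoots]
      have hiff : (∃ α : F, α ^ n = c) ↔ χ c = 1 := by
        constructor
        · rintro ⟨z, hz⟩
          have hz0 : z ≠ 0 := fun h => hc (by rw [← hz, h, zero_pow hn.ne_zero])
          rw [← hz, map_pow]
          exact norm_one n hn.ne_zero χ hχn z hz0
        · intro h1
          obtain ⟨k, hk⟩ := hg (Units.mk0 c hc)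
          have hk' : g ^ k = Units.mk0 c hc := hk
          have hk2 : c = (g : F) ^ k := by
            rw [← Units.val_pow_eq_pow_val, hk', Units.val_mk0]
          rw [hk2, map_pow] at h1
          obtain ⟨l, hl⟩ := hprim.dvd_of_pow_eq_one k h1
          exact ⟨(g : F) ^ l, by rw [← pow_mul, hk2, hl, mul_comm]⟩
      by_cases h1 : χ c = 1
      · rw [if_pos (hiff.2 h1), h1]
        simp
      · rw [if_neg (fun h => h1 (hiff.1 h))]
        have h2 := geom_sum_mul (χ c) n
        rw [norm_one n hn.ne_zero χ hχn c hc, sub_self] at h2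
        rcases mul_eq_zero.1 h2 with h3 | h3
        · rw [h3, Nat.cast_zero]
        · exact absurd (sub_eq_zero.1 h3) h1
  · rw [hXX]
    refine Finset.card_image_le.trans ?_
    rw [Nat.card_Ico]

theorem hE7 : StE7 := by
  intro F _ _ n hn
  have hle : ∀ c : F, Nat.card {z : F // z ^ n = c} ≤ n := fun c => by
    rw [card_nth n hn.pos]
    exact (Multiset.toFinset_card_le _).trans (Polynomial.card_nthRoots n c)
  have hlast : ∀ ψ ∈ XX F n, ∀ a b : F, a ≠ 0 → b ≠ 0 →
      ψ a * starRingEnd ℂ (ψ b) = ψ (a * b ^ (n - 1)) ∧ ‖ψ a‖ = 1 := fun ψ hψ a b ha hb =>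
    lastpart n hn ψ ((mem_XX n ψ).1 hψ).1 a b ha hb
  by_cases hd : n ∣ Fintype.card F - 1
  · obtain ⟨h1, h2⟩ := case_div n hn hd
    exact ⟨h1, h2, hle, hlast⟩
  · obtain ⟨h1, h2⟩ := case_cop n hn hd
    refine ⟨fun c => ?_, ?_, hle, hlast⟩
    · rw [h1, h2 c]
      simp
    · rw [h1]
      simp

end Pool.Agent.Helper39.SE
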